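import Pool.Agent.TH829.Peg.Sep

/-! Connected sets of chords of a closed curve joining the short chords and the long chords. -/

set_option autoImplicit false
open Complex Set Topology Metric

namespace Pool.Agent.Y765.Sq

open Pool.Agent.H763R2 Pool.Agent.H763R2.An
open Pool.Agent.H763R2.Dm (NoSq)

/-- In a compact Hausdorff space two closed sets are joined by a component, or they are separated
by a clopen set. -/
theorem conn_or_sep {X : Type*} [TopologicalSpace X] [CompactSpace X] [T2Space X] {P Q : Set X}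
    (hP : IsClosed P) (hQ : IsClosed Q) :
    (∃ a ∈ P, ∃ b ∈ Q, b ∈ connectedComponent a) ∨
      ∃ U : Set X, IsClopen U ∧ P ⊆ U ∧ Disjoint U Q := by
  by_cases h : ∃ a ∈ P, ∃ b ∈ Q, b ∈ connectedComponent a
  · exact Or.inl h
  · right
    push Not at h
    have key : ∀ a ∈ P, ∃ U : Set X, IsClopen U ∧ a ∈ U ∧ Disjoint U Q := by
      intro a ha
      have : Nonempty {s : Set X // IsClopen s ∧ a ∈ s} := ⟨⟨univ, isClopen_univ, mem_univ a⟩⟩
      obtain ⟨s, hs⟩ := hQ.isCompact.elim_directed_family_closed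
        (fun s : {s : Set X // IsClopen s ∧ a ∈ s} => (s : Set X)) (fun s => s.2.1.1) (by
          rw [← connectedComponent_eq_iInter_isClopen, eq_empty_iff_forall_notMem]
          rintro b ⟨hb, hb'⟩
          exact h a ha b hb hb') (by
          intro s t
          exact ⟨⟨s ∩ t, s.2.1.inter t.2.1, s.2.2, t.2.2⟩, inter_subset_left,
            inter_subset_right⟩)
      exact ⟨s, s.2.1, s.2.2, by rw [disjoint_comm, disjoint_iff_inter_eq_empty]; exact hs⟩
    choose! U hU haU hUQ using key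
    obtain ⟨t, ht, htP⟩ := hP.isCompact.elim_nhds_subcover U
      (fun a ha => (hU a ha).isOpen.mem_nhds (haU a ha))
    refine ⟨⋃ a ∈ t, U a, ?_, htP, ?_⟩
    · exact isClopen_biUnion_finset fun a ha => hU a (ht a ha)
    · rw [disjoint_iUnion₂_left]
      exact fun a ha => hUQ a (ht a ha)

/-- the annulus of chords -/
abbrev Ann := AddCircle (1 : ℝ) × ℝ

/-- the chord from `c x` to `c y` -/
def prj (p : ℝ × ℝ) : Ann := ((p.1 : AddCircle (1 : ℝ)), p.2 - p.1)

theorem prj_cont : Continuous prj :=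
  ((AddCircle.continuous_mk' 1).comp continuous_fst).prodMk (continuous_snd.sub continuous_fst)

theorem prj_shift (x y : ℝ) : prj (x + 1, y + 1) = prj (x, y) := by
  unfold prj
  simp only [Prod.mk.injEq]
  refine ⟨?_, by ring⟩
  rw [AddCircle.coe_add, AddCircle.coe_period, add_zero]

variable {c : ℝ → ℂ}

/-- the points of the curve as a function on the circle -/
noncomputable def cl (L : Loop c) : AddCircle (1 : ℝ) → ℂ :=
  Function.Periodic.lift (f := c) (c := (1 : ℝ)) L.per

theorem cl_coe (L : Loop c) (x : ℝ) : cl L (x : AddCircle (1 : ℝ)) = c x := rfl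

theorem cl_cont (L : Loop c) : Continuous (cl L) := by
  have := L.cont
  exact continuous_coinduced_dom.mpr this

/-- the direction of a chord -/
def Dirc (c : ℝ → ℂ) (α x y : ℝ) : Prop :=
  ∃ t : ℝ, 0 < t ∧ mgc c (DD c x y) = t * Real.cos α ∧ mgc c (CC c x y) = t * Real.sin α

theorem sq_ne (L : Loop c) (J : Inj c) (nosq : NoSq (range c)) {x y : ℝ} (h1 : x < y)
    (h2 : y < x + 1) : ¬ (mgc c (DD c x y) = 0 ∧ mgc c (CC c x y) = 0) := by
  rintro ⟨hD, hC⟩
  have S := mgc_sg L
  refine nosq ⟨c x, c y - c x, sub_ne_zero.2 (J x y h1 h2).symm, mem_range_self x, ?_, ?_, ?_⟩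
  · rw [add_sub_cancel]; exact mem_range_self y
  · have := (S.zero L (z := CC c x y)).1 hC
    have e : c x + (c y - c x) + I * (c y - c x) = CC c x y := by
      unfold CC Sq.Cv; ring
    rw [e]; exact this
  · have := (S.zero L (z := DD c x y)).1 hD
    have e : c x + I * (c y - c x) = DD c x y := by
      unfold DD Sq.Dv; ring
    rw [e]; exact this

theorem dirc_iff (L : Loop c) (J : Inj c) (nosq : NoSq (range c)) {x y : ℝ} (h1 : x < y)
    (h2 : y < x + 1) (α : ℝ) : Dirc c α x y ↔
      (mgc c (DD c x y) * Real.sin α = mgc c (CC c x y) * Real.cos α ∧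
        0 ≤ mgc c (DD c x y) * Real.cos α + mgc c (CC c x y) * Real.sin α) := by
  have hs := Real.sin_sq_add_cos_sq α
  constructor
  · rintro ⟨t, ht, e1, e2⟩
    rw [e1, e2]
    refine ⟨by ring, ?_⟩
    have : t * Real.cos α * Real.cos α + t * Real.sin α * Real.sin α = t := by
      linear_combination t * hs
    rw [this]; exact ht.le
  · rintro ⟨e, h⟩
    set a := mgc c (DD c x y) with ha
    set b := mgc c (CC c x y) with hb
    have e1 : a = (a * Real.cos α + b * Real.sin α) * Real.cos α := by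
      linear_combination (-a) * hs + Real.sin α * e
    have e2 : b = (a * Real.cos α + b * Real.sin α) * Real.sin α := by
      linear_combination (-b) * hs - Real.cos α * e
    refine ⟨a * Real.cos α + b * Real.sin α, lt_of_le_of_ne h fun h0 => ?_, e1, e2⟩
    rw [← h0, zero_mul] at e1 e2
    exact sq_ne L J nosq h1 h2 ⟨e1, e2⟩

/-- the chords of direction `α` whose parameter length is in `[δ, 1 - δ]` -/
def Zs (c : ℝ → ℂ) (α δ : ℝ) : Set Ann :=
  {p | δ ≤ p.2 ∧ p.2 ≤ 1 - δ ∧ ∀ x : ℝ, (x : AddCircle (1 : ℝ)) = p.1 → Dirc c α x (x + p.2)}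

/-- the vertex `D` as a function on the annulus -/
noncomputable def Dp (L : Loop c) (p : Ann) : ℂ :=
  Sq.Dv (cl L p.1) (cl L (p.1 + (p.2 : AddCircle (1 : ℝ))))
/-- the vertex `E` as a function on the annulus -/
noncomputable def Cp (L : Loop c) (p : Ann) : ℂ :=
  Sq.Cv (cl L p.1) (cl L (p.1 + (p.2 : AddCircle (1 : ℝ))))

theorem Dp_coe (L : Loop c) {p : Ann} {x : ℝ} (h : (x : AddCircle (1 : ℝ)) = p.1) :
    Dp L p = DD c x (x + p.2) := by
  unfold Dp DD
  rw [← h, ← AddCircle.coe_add, cl_coe, cl_coe]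

theorem Cp_coe (L : Loop c) {p : Ann} {x : ℝ} (h : (x : AddCircle (1 : ℝ)) = p.1) :
    Cp L p = CC c x (x + p.2) := by
  unfold Cp CC
  rw [← h, ← AddCircle.coe_add, cl_coe, cl_coe]

theorem cB_cont (L : Loop c) : Continuous fun p : Ann =>
    cl L (p.1 + (p.2 : AddCircle (1 : ℝ))) :=
  (cl_cont L).comp (continuous_fst.add ((AddCircle.continuous_mk' 1).comp continuous_snd))

theorem cA_cont (L : Loop c) : Continuous fun p : Ann => cl L p.1 :=
  (cl_cont L).comp continuous_fst

theorem Dp_cont (L : Loop c) : Continuous (Dp L) := by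
  have h1 := cA_cont L
  have h2 := cB_cont L
  unfold Dp Sq.Dv
  fun_prop

theorem Cp_cont (L : Loop c) : Continuous (Cp L) := by
  have h1 := cA_cont L
  have h2 := cB_cont L
  unfold Cp Sq.Cv
  fun_prop

theorem Zs_eq (L : Loop c) (J : Inj c) (nosq : NoSq (range c)) (α : ℝ) {δ : ℝ} (hδ : 0 < δ) :
    Zs c α δ = {p | δ ≤ p.2 ∧ p.2 ≤ 1 - δ ∧
      mgc c (Dp L p) * Real.sin α = mgc c (Cp L p) * Real.cos α ∧
      0 ≤ mgc c (Dp L p) * Real.cos α + mgc c (Cp L p) * Real.sin α} := by
  ext p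
  constructor
  · rintro ⟨h1, h2, h3⟩
    obtain ⟨x, hx⟩ := QuotientAddGroup.mk_surjective p.1
    change (x : AddCircle (1 : ℝ)) = p.1 at hx
    have h := (dirc_iff L J nosq (by linarith) (by linarith) α).1 (h3 x hx)
    rw [← Dp_coe L hx, ← Cp_coe L hx] at h
    exact ⟨h1, h2, h⟩
  · rintro ⟨h1, h2, h⟩
    refine ⟨h1, h2, fun x hx => (dirc_iff L J nosq (by linarith) (by linarith) α).2 ?_⟩
    rw [← Dp_coe L hx, ← Cp_coe L hx]
    exact h

theorem Zs_closed (L : Loop c) (J : Inj c) (nosq : NoSq (range c)) (α : ℝ) {δ : ℝ}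
    (hδ : 0 < δ) : IsClosed (Zs c α δ) := by
  rw [Zs_eq L J nosq α hδ]
  have hM := (mgc_sg L).cont
  have h1 : Continuous fun p => mgc c (Dp L p) := hM.comp (Dp_cont L)
  have h2 : Continuous fun p => mgc c (Cp L p) := hM.comp (Cp_cont L)
  refine (isClosed_le continuous_const continuous_snd).inter
    ((isClosed_le continuous_snd continuous_const).inter
      ((isClosed_eq (h1.mul continuous_const) (h2.mul continuous_const)).inter
        (isClosed_le continuous_const
          ((h1.mul continuous_const).add (h2.mul continuous_const)))))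

theorem Zs_compact (L : Loop c) (J : Inj c) (nosq : NoSq (range c)) (α : ℝ) {δ : ℝ}
    (hδ : 0 < δ) : IsCompact (Zs c α δ) := by
  have hK : IsCompact ((univ : Set (AddCircle (1 : ℝ))) ×ˢ Icc δ (1 - δ)) :=
    isCompact_univ.prod isCompact_Icc
  exact hK.of_isClosed_subset (Zs_closed L J nosq α hδ)
    fun p hp => ⟨mem_univ _, hp.1, hp.2.1⟩

/-- For every direction there is a connected set of chords of this direction that joins the short
and the long chords. -/
theorem conn_fam (L : Loop c) (J : Inj c) (nosq : NoSq (range c)) (α : ℝ) {δ : ℝ}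
    (hδ : 0 < δ) (hδ2 : δ < 1 / 2) : ∃ T : Set Ann, IsConnected T ∧ T ⊆ Zs c α δ ∧
      (∃ p ∈ T, p.2 = δ) ∧ ∃ p ∈ T, p.2 = 1 - δ := by
  have hZ := Zs_closed L J nosq α hδ
  have : CompactSpace (Zs c α δ) := isCompact_iff_compactSpace.1 (Zs_compact L J nosq α hδ)
  have c2 : Continuous fun p : Zs c α δ => p.1.2 := continuous_snd.comp continuous_subtype_val
  rcases conn_or_sep (P := {p : Zs c α δ | p.1.2 ≤ δ}) (Q := {p : Zs c α δ | 1 - δ ≤ p.1.2})
    (isClosed_le c2 continuous_const) (isClosed_le continuous_const c2) with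
    ⟨a, ha, b, hb, hab⟩ | ⟨U, hU, hPU, hUQ⟩
  · refine ⟨Subtype.val '' connectedComponent a,
      isConnected_connectedComponent.image _ continuous_subtype_val.continuousOn, ?_,
      ⟨a, ⟨a, mem_connectedComponent, rfl⟩, le_antisymm ha a.2.1⟩,
      ⟨b, ⟨b, hab, rfl⟩, le_antisymm b.2.2.1 hb⟩⟩
    rintro _ ⟨z, -, rfl⟩
    exact z.2
  · exfalso
    obtain ⟨F1, hF1⟩ : ∃ F : Set Ann, F = Subtype.val '' U ∪ {p | p.2 ≤ δ} := ⟨_, rfl⟩
    obtain ⟨F2, hF2⟩ : ∃ F : Set Ann, F = Subtype.val '' Uᶜ ∪ {p | 1 - δ ≤ p.2} := ⟨_, rfl⟩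
    have cF1 : IsClosed F1 := by
      rw [hF1]
      exact (hZ.isClosedEmbedding_subtypeVal.isClosedMap _ hU.isClosed).union
        (isClosed_le continuous_snd continuous_const)
    have cF2 : IsClosed F2 := by
      rw [hF2]
      exact (hZ.isClosedEmbedding_subtypeVal.isClosedMap _ hU.compl.isClosed).union
        (isClosed_le continuous_const continuous_snd)
    have hdis : ∀ p, p ∈ F1 → p ∉ F2 := by
      intro p h1 h2
      rw [hF1] at h1
      rw [hF2] at h2
      rcases h1 with ⟨u, hu, rfl⟩ | h1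
      · rcases h2 with ⟨v, hv, e⟩ | h2
        · rw [Subtype.val_injective e] at hv
          exact hv hu
        · exact (disjoint_left.1 hUQ) hu h2
      · rcases h2 with ⟨v, hv, rfl⟩ | h2
        · exact hv (hPU h1)
        · have h1' : p.2 ≤ δ := h1
          have h2' : 1 - δ ≤ p.2 := h2
          linarith
    have m1 : ∀ p : Ann, p.2 ≤ δ → p ∈ F1 := fun p hp => by rw [hF1]; exact Or.inr hp
    have m2 : ∀ p : Ann, 1 - δ ≤ p.2 → p ∈ F2 := fun p hp => by rw [hF2]; exact Or.inr hp
    have ne1 : F1.Nonempty := ⟨(0, 0), m1 _ hδ.le⟩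
    have ne2 : F2.Nonempty := ⟨(0, 1), m2 _ (by show 1 - δ ≤ 1; linarith)⟩
    have pos1 : ∀ p, p ∉ F1 → 0 < infDist p F1 := fun p hp =>
      (cF1.notMem_iff_infDist_pos ne1).1 hp
    have pos2 : ∀ p, p ∉ F2 → 0 < infDist p F2 := fun p hp =>
      (cF2.notMem_iff_infDist_pos ne2).1 hp
    obtain ⟨φ, hφ⟩ : ∃ φ : ℝ × ℝ → ℝ, φ = fun q => infDist (prj q) F1 - infDist (prj q) F2 :=
      ⟨_, rfl⟩
    have cφ : Continuous φ := by
      rw [hφ]
      exact ((continuous_infDist_pt F1).comp prj_cont).sub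
        ((continuous_infDist_pt F2).comp prj_cont)
    have neg : ∀ q : ℝ × ℝ, q.2 - q.1 ≤ δ → φ q < 0 := by
      intro q hq
      have h1 : prj q ∈ F1 := m1 _ hq
      have h2 := pos2 _ (hdis _ h1)
      rw [hφ]
      simp only
      rw [infDist_zero_of_mem h1]
      linarith
    have pos : ∀ q : ℝ × ℝ, 1 - δ ≤ q.2 - q.1 → 0 < φ q := by
      intro q hq
      have h1 : prj q ∈ F2 := m2 _ hq
      have h2 := pos1 _ (fun h => hdis _ h h1)
      rw [hφ]
      simp only
      rw [infDist_zero_of_mem h1]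
      linarith
    obtain ⟨x, y, t, hx, hy, hm, ht, e1, e2⟩ := TH829.Peg.crossing_sep (S := {q | φ q = 0})
      L J nosq (isClosed_eq cφ continuous_const) (fun x y => by
        show φ (x + 1, y + 1) = 0 ↔ φ (x, y) = 0
        rw [hφ]
        simp only [prj_shift]) (fun x h => by
        have := neg (x, x) (by show x - x ≤ δ; linarith)
        change φ (x, x) = 0 at h
        linarith) (fun x h => by
        have := pos (x, x + 1) (by show 1 - δ ≤ x + 1 - x; linarith)
        change φ (x, x + 1) = 0 at h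
        linarith) (fun x y hx hy _ e0 e1 => by
        have cc : ContinuousOn (fun s => φ (x s, y s)) (Icc 0 1) :=
          cφ.comp_continuousOn (hx.prodMk hy)
        have h0 := neg (x 0, y 0) (by show y 0 - x 0 ≤ δ; rw [e0]; linarith)
        have h1 := pos (x 1, y 1) (by show 1 - δ ≤ y 1 - x 1; rw [e1]; linarith)
        obtain ⟨s, hs, e⟩ := intermediate_value_Icc zero_le_one cc
          (show (0:ℝ) ∈ Icc _ _ from ⟨h0.le, h1.le⟩)
        exact ⟨s, hs, e⟩) α
    have hφ0 : φ (x, y) = 0 := hm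
    have d1 : δ < y - x := by
      by_contra hcon
      have := neg (x, y) (not_lt.1 hcon)
      linarith
    have d2 : y - x < 1 - δ := by
      by_contra hcon
      have := pos (x, y) (not_lt.1 hcon)
      linarith
    have hmem : prj (x, y) ∈ Zs c α δ := by
      rw [Zs_eq L J nosq α hδ]
      have hc : (x : AddCircle (1 : ℝ)) = (prj (x, y)).1 := rfl
      have e : x + (prj (x, y)).2 = y := by show x + (y - x) = y; ring
      have h := (dirc_iff L J nosq hx hy α).1 ⟨t, ht, e1, e2⟩
      refine ⟨d1.le, d2.le, ?_⟩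
      rw [Dp_coe L hc, Cp_coe L hc, e]
      exact h
    have hsplit : prj (x, y) ∈ F1 ∨ prj (x, y) ∈ F2 := by
      by_cases hu : (⟨prj (x, y), hmem⟩ : Zs c α δ) ∈ U
      · left; rw [hF1]; exact Or.inl ⟨_, hu, rfl⟩
      · right; rw [hF2]; exact Or.inl ⟨_, hu, rfl⟩
    rw [hφ] at hφ0
    simp only at hφ0
    rcases hsplit with h | h
    · have := pos2 _ (hdis _ h)
      rw [infDist_zero_of_mem h] at hφ0
      linarith
    · have := pos1 _ (fun h' => hdis _ h' h)
      rw [infDist_zero_of_mem h] at hφ0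
      linarith

end Pool.Agent.Y765.Sq
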