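import Pool.Agent.Y765.Sq.Cnn

/-! Connected families of inscribed isosceles right triangles. -/

set_option autoImplicit false
open Complex Set Topology Metric

namespace Pool.Agent.Y765.Sq

open Pool.Agent.H763R2 Pool.Agent.H763R2.An
open Pool.Agent.H763R2.Dm (NoSq)

variable {c : ℝ → ℂ}

/-- `P = c x`, `Q = c y`, `V = c u` and `V - P = κ (Q - P)`; the fourth vertex has the sign `σ` -/
def TriM (c : ℝ → ℂ) (κ : ℂ) (σ x y u : ℝ) : Prop :=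
  c u = c x + κ * (c y - c x) ∧ 0 < σ * mgc c (c y + κ * (c y - c x))

theorem TriM.ne (J : Inj c) {κ : ℂ} (hκ : κ = I ∨ κ = -I) {σ x y u : ℝ} (h1 : x < y)
    (h2 : y < x + 1) (h : TriM c κ σ x y u) : c u ≠ c x ∧ c u ≠ c y := by
  have hne : c y - c x ≠ 0 := sub_ne_zero.2 (J x y h1 h2).symm
  constructor
  · rw [h.1]
    intro e
    have : κ * (c y - c x) = 0 := by linear_combination e
    rcases mul_eq_zero.1 this with h0 | h0
    · rcases hκ with rfl | rfl <;> simp at h0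
    · exact hne h0
  · rw [h.1]
    intro e
    have : (κ - 1) * (c y - c x) = 0 := by linear_combination e
    rcases mul_eq_zero.1 this with h0 | h0
    · have := congrArg Complex.im h0
      rcases hκ with rfl | rfl <;> simp at this
    · exact hne h0

/-- the triangle on a chord -/
theorem exists_tri (L : Loop c) {σ : ℝ} (hσ : σ = 1 ∨ σ = -1) {x y : ℝ}
    (h : Dirc c (σ * (Real.pi / 2)) x y) : ∃ u, TriM c I σ x y u := by
  obtain ⟨t, ht, e1, e2⟩ := h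
  have hcos : Real.cos (σ * (Real.pi / 2)) = 0 := by
    rcases hσ with rfl | rfl
    · rw [one_mul, Real.cos_pi_div_two]
    · rw [neg_one_mul, Real.cos_neg, Real.cos_pi_div_two]
  have hsin : Real.sin (σ * (Real.pi / 2)) = σ := by
    rcases hσ with rfl | rfl
    · rw [one_mul, Real.sin_pi_div_two]
    · rw [neg_one_mul, Real.sin_neg, Real.sin_pi_div_two]
  rw [hcos, mul_zero] at e1
  obtain ⟨u, hu⟩ := ((mgc_sg L).zero L (z := DD c x y)).1 e1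
  refine ⟨u, ?_, ?_⟩
  · rw [hu]; unfold DD Sq.Dv; ring
  · have e : c y + I * (c y - c x) = CC c x y := by unfold CC Sq.Cv; ring
    rw [e, e2, hsin]
    have : σ * (t * σ) = t := by rcases hσ with rfl | rfl <;> ring
    rw [this]; exact ht

/-- the triangle on a chord, the other kinds -/
theorem exists_tri' (L : Loop c) {σ α : ℝ} (hσ : σ = 1 ∧ α = 0 ∨ σ = -1 ∧ α = Real.pi) {x y : ℝ}
    (h : Dirc c α x y) : ∃ u, TriM c (-I) σ y (x + 1) u := by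
  obtain ⟨t, ht, e1, e2⟩ := h
  have hsin : Real.sin α = 0 := by
    rcases hσ with ⟨-, rfl⟩ | ⟨-, rfl⟩
    · exact Real.sin_zero
    · exact Real.sin_pi
  have hcos : Real.cos α = σ := by
    rcases hσ with ⟨rfl, rfl⟩ | ⟨rfl, rfl⟩
    · exact Real.cos_zero
    · exact Real.cos_pi
  rw [hsin, mul_zero] at e2
  obtain ⟨u, hu⟩ := ((mgc_sg L).zero L (z := CC c x y)).1 e2
  refine ⟨u, ?_, ?_⟩
  · rw [hu, L.per]; unfold CC Sq.Cv; ring
  · rw [L.per]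
    have e : c x + -I * (c x - c y) = DD c x y := by unfold DD Sq.Dv; ring
    rw [e, e1, hcos]
    have : σ * (t * σ) = t := by rcases hσ with ⟨rfl, -⟩ | ⟨rfl, -⟩ <;> ring
    rw [this]; exact ht

/-- connected families of triangles -/
theorem tri_fam0 (L : Loop c) (J : Inj c) (nosq : NoSq (range c)) {κ : ℂ} (hκ : κ = I ∨ κ = -I)
    {σ : ℝ} (hσ : σ = 1 ∨ σ = -1) {δ : ℝ} (hδ : 0 < δ) (hδ2 : δ < 1 / 2) :
    ∃ T : Set Ann, IsConnected T ∧ (∃ p ∈ T, p.2 = δ) ∧ (∃ p ∈ T, p.2 = 1 - δ) ∧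
      ∀ p ∈ T, δ ≤ p.2 ∧ p.2 ≤ 1 - δ ∧ ∀ x : ℝ, (x : AddCircle (1 : ℝ)) = p.1 →
        ∃ u, TriM c κ σ x (x + p.2) u := by
  rcases hκ with rfl | rfl
  · obtain ⟨T, hT, hZ, h1, h2⟩ := conn_fam L J nosq (σ * (Real.pi / 2)) hδ hδ2
    exact ⟨T, hT, h1, h2, fun p hp => ⟨(hZ hp).1, (hZ hp).2.1, fun x hx =>
      exists_tri L hσ ((hZ hp).2.2 x hx)⟩⟩
  · obtain ⟨α, hα⟩ : ∃ α : ℝ, σ = 1 ∧ α = 0 ∨ σ = -1 ∧ α = Real.pi := by
      rcases hσ with h | h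
      · exact ⟨0, Or.inl ⟨h, rfl⟩⟩
      · exact ⟨Real.pi, Or.inr ⟨h, rfl⟩⟩
    obtain ⟨T, hT, hZ, ⟨p1, hp1, e1⟩, ⟨p2, hp2, e2⟩⟩ := conn_fam L J nosq α hδ hδ2
    have ch : Continuous fun p : Ann => ((p.1 + (p.2 : AddCircle (1 : ℝ)), 1 - p.2) : Ann) :=
      (continuous_fst.add ((AddCircle.continuous_mk' 1).comp continuous_snd)).prodMk
        (continuous_const.sub continuous_snd)
    refine ⟨(fun p : Ann => ((p.1 + (p.2 : AddCircle (1 : ℝ)), 1 - p.2) : Ann)) '' T,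
      hT.image _ ch.continuousOn, ⟨_, ⟨p2, hp2, rfl⟩, ?_⟩, ⟨_, ⟨p1, hp1, rfl⟩, ?_⟩, ?_⟩
    · show 1 - p2.2 = δ
      rw [e2]; ring
    · show 1 - p1.2 = 1 - δ
      rw [e1]
    · rintro _ ⟨p, hp, rfl⟩
      have hz := hZ hp
      refine ⟨?_, ?_, fun y hy => ?_⟩
      · show δ ≤ 1 - p.2
        linarith [hz.2.1]
      · show 1 - p.2 ≤ 1 - δ
        linarith [hz.1]
      · have hx : ((y - p.2 : ℝ) : AddCircle (1 : ℝ)) = p.1 := by
          rw [AddCircle.coe_sub, hy]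
          simp
        obtain ⟨u, hu⟩ := exists_tri' L hα (hz.2.2 _ hx)
        refine ⟨u, ?_⟩
        have a1 : y - p.2 + p.2 = y := by ring
        have a2 : y - p.2 + 1 = y + (1 - p.2) := by ring
        rw [a1, a2] at hu
        exact hu

/-- chords whose third vertex is on the arc given by `f`, `g` -/
def Gc (c : ℝ → ℂ) (κ : ℂ) (δ : ℝ) (f g : ℝ × ℝ → ℝ) : Set Ann :=
  (fun q : ℝ × ℝ × ℝ => (((q.1 : AddCircle (1 : ℝ)), q.2.1) : Ann)) ''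
    {q : ℝ × ℝ × ℝ | q.1 ∈ Icc (0:ℝ) 1 ∧ q.2.1 ∈ Icc δ (1 - δ) ∧ f (q.1, q.2.1) ≤ q.2.2 ∧
      q.2.2 ≤ g (q.1, q.2.1) ∧ c q.2.2 = c q.1 + κ * (c (q.1 + q.2.1) - c q.1)}

theorem Gc_closed (L : Loop c) (κ : ℂ) {δ : ℝ} {f g : ℝ × ℝ → ℝ} (hf : Continuous f)
    (hg : Continuous g) (hf0 : ∀ x s, x ∈ Icc (0:ℝ) 1 → s ∈ Icc δ (1 - δ) → 0 < δ → 0 ≤ f (x, s))
    (hg0 : ∀ x s, x ∈ Icc (0:ℝ) 1 → s ∈ Icc δ (1 - δ) → 0 < δ → g (x, s) ≤ 2) (hδ : 0 < δ) :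
    IsClosed (Gc c κ δ f g) := by
  have cc := L.cont
  refine (IsCompact.image ?_ ?_).isClosed
  · have hK : IsCompact (Icc (0:ℝ) 1 ×ˢ Icc δ (1 - δ) ×ˢ Icc (0:ℝ) 2) :=
      isCompact_Icc.prod (isCompact_Icc.prod isCompact_Icc)
    refine hK.of_isClosed_subset ?_ ?_
    · have k1 : IsClosed {q : ℝ × ℝ × ℝ | q.1 ∈ Icc (0:ℝ) 1} :=
        isClosed_Icc.preimage continuous_fst
      have k2 : IsClosed {q : ℝ × ℝ × ℝ | q.2.1 ∈ Icc δ (1 - δ)} :=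
        isClosed_Icc.preimage (continuous_fst.comp continuous_snd)
      have k3 : IsClosed {q : ℝ × ℝ × ℝ | f (q.1, q.2.1) ≤ q.2.2} :=
        isClosed_le (by fun_prop) (by fun_prop)
      have k4 : IsClosed {q : ℝ × ℝ × ℝ | q.2.2 ≤ g (q.1, q.2.1)} :=
        isClosed_le (by fun_prop) (by fun_prop)
      have k5 : IsClosed {q : ℝ × ℝ × ℝ | c q.2.2 = c q.1 + κ * (c (q.1 + q.2.1) - c q.1)} :=
        isClosed_eq (by fun_prop) (by fun_prop)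
      exact k1.inter (k2.inter (k3.inter (k4.inter k5)))
    · rintro ⟨x, s, u⟩ ⟨h1, h2, h3, h4, -⟩
      simp only at h1 h2 h3 h4
      exact ⟨h1, h2, (hf0 x s h1 h2 hδ).trans h3, h4.trans (hg0 x s h1 h2 hδ)⟩
  · exact ((AddCircle.continuous_mk' 1).comp continuous_fst).prodMk
      (continuous_fst.comp continuous_snd)

/-- every class has a representative in the unit interval -/
theorem exists_rep (a : AddCircle (1 : ℝ)) : ∃ x ∈ Icc (0:ℝ) 1, (x : AddCircle (1 : ℝ)) = a := by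
  obtain ⟨y, hy⟩ := QuotientAddGroup.mk_surjective a
  change (y : AddCircle (1 : ℝ)) = a at hy
  refine ⟨Int.fract y, ⟨Int.fract_nonneg y, (Int.fract_lt_one y).le⟩, ?_⟩
  rw [← hy]
  exact AddCircle.coe_fract y

theorem exists_int {x y : ℝ} (h : (x : AddCircle (1 : ℝ)) = (y : AddCircle (1 : ℝ))) :
    ∃ n : ℤ, x = y + n := by
  have h1 : ((x - y : ℝ) : AddCircle (1 : ℝ)) = 0 := by
    rw [AddCircle.coe_sub, h, sub_self]
  obtain ⟨n, hn⟩ := (AddCircle.coe_eq_zero_iff (1 : ℝ)).1 h1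
  refine ⟨n, ?_⟩
  rw [zsmul_eq_mul, mul_one] at hn
  linarith

/-- the third vertex stays on one of the two arcs -/
theorem split (L : Loop c) (J : Inj c) {κ : ℂ} (hκ : κ = I ∨ κ = -I) {σ : ℝ} {δ : ℝ}
    (hδ : 0 < δ) {T : Set Ann} (hT : IsConnected T)
    (h : ∀ p ∈ T, δ ≤ p.2 ∧ p.2 ≤ 1 - δ ∧ ∀ x : ℝ, (x : AddCircle (1 : ℝ)) = p.1 →
        ∃ u, TriM c κ σ x (x + p.2) u) :
    (∀ p ∈ T, ∀ x : ℝ, (x : AddCircle (1 : ℝ)) = p.1 →
      ∃ u, x < u ∧ u < x + p.2 ∧ TriM c κ σ x (x + p.2) u) ∨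
    (∀ p ∈ T, ∀ x : ℝ, (x : AddCircle (1 : ℝ)) = p.1 →
      ∃ u, x + p.2 < u ∧ u < x + 1 ∧ TriM c κ σ x (x + p.2) u) := by
  obtain ⟨G1, hG1⟩ : ∃ G, G = Gc c κ δ (fun q => q.1) (fun q => q.1 + q.2) := ⟨_, rfl⟩
  obtain ⟨G2, hG2⟩ : ∃ G, G = Gc c κ δ (fun q => q.1 + q.2) (fun q => q.1 + 1) := ⟨_, rfl⟩
  have c1 : IsClosed G1 := by
    rw [hG1]
    exact Gc_closed L κ (by fun_prop) (by fun_prop) (fun x s hx _ _ => hx.1)
      (fun x s hx hs _ => by show x + s ≤ 2; linarith [hx.2, hs.2]) hδ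
  have c2 : IsClosed G2 := by
    rw [hG2]
    exact Gc_closed L κ (by fun_prop) (by fun_prop)
      (fun x s hx hs _ => by show 0 ≤ x + s; linarith [hx.1, hs.1])
      (fun x s hx hs _ => by show x + 1 ≤ 2; linarith [hx.2]) hδ
  have m1 : ∀ p ∈ T, p ∈ G1 → ∀ x : ℝ, (x : AddCircle (1 : ℝ)) = p.1 →
      ∃ u, x < u ∧ u < x + p.2 ∧ TriM c κ σ x (x + p.2) u := by
    intro p hp hpG x hx
    obtain ⟨d1, d2, hall⟩ := h p hp
    rw [hG1] at hpG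
    obtain ⟨⟨x0, s, u0⟩, ⟨e1, e2, e3, e4, e5⟩, e6⟩ := hpG
    simp only at e1 e2 e3 e4 e5 e6
    obtain ⟨n, hn⟩ : ∃ n : ℤ, x = x0 + n := exists_int (by rw [hx, ← e6])
    have hs : p.2 = s := by rw [← e6]
    obtain ⟨w, hw⟩ := hall x hx
    have htri : TriM c κ σ x (x + p.2) (u0 + n) := by
      refine ⟨?_, hw.2⟩
      rw [L.per_int, e5, hs, hn, L.per_int, show x0 + (n:ℝ) + s = x0 + s + n by ring, L.per_int]
    have hne := htri.ne J hκ (by linarith) (by linarith)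
    refine ⟨u0 + n, lt_of_le_of_ne (by linarith) fun e => hne.1 (by rw [← e]),
      lt_of_le_of_ne (by linarith) fun e => hne.2 (by rw [e]), htri⟩
  have m2 : ∀ p ∈ T, p ∈ G2 → ∀ x : ℝ, (x : AddCircle (1 : ℝ)) = p.1 →
      ∃ u, x + p.2 < u ∧ u < x + 1 ∧ TriM c κ σ x (x + p.2) u := by
    intro p hp hpG x hx
    obtain ⟨d1, d2, hall⟩ := h p hp
    rw [hG2] at hpG
    obtain ⟨⟨x0, s, u0⟩, ⟨e1, e2, e3, e4, e5⟩, e6⟩ := hpG
    simp only at e1 e2 e3 e4 e5 e6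
    obtain ⟨n, hn⟩ : ∃ n : ℤ, x = x0 + n := exists_int (by rw [hx, ← e6])
    have hs : p.2 = s := by rw [← e6]
    obtain ⟨w, hw⟩ := hall x hx
    have htri : TriM c κ σ x (x + p.2) (u0 + n) := by
      refine ⟨?_, hw.2⟩
      rw [L.per_int, e5, hs, hn, L.per_int, show x0 + (n:ℝ) + s = x0 + s + n by ring, L.per_int]
    have hne := htri.ne J hκ (by linarith) (by linarith)
    refine ⟨u0 + n, lt_of_le_of_ne (by linarith) fun e => hne.2 (by rw [← e]),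
      lt_of_le_of_ne (by linarith) fun e => hne.1 (by rw [e, L.per]), htri⟩
  have hcov : T ⊆ G1 ∪ G2 := by
    intro p hp
    obtain ⟨d1, d2, hall⟩ := h p hp
    obtain ⟨x, hx, hxp⟩ := exists_rep p.1
    obtain ⟨w, hw⟩ := hall x hxp
    obtain ⟨u, hu⟩ : ∃ u, u = x + Int.fract (w - x) := ⟨_, rfl⟩
    have hcu : c u = c w := by
      have e : u + (⌊w - x⌋ : ℝ) = w := by
        rw [hu, add_assoc, Int.fract_add_floor]; ring
      rw [← L.per_int u ⌊w - x⌋, e]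
    have u1 : x ≤ u := by rw [hu]; linarith [Int.fract_nonneg (w - x)]
    have u2 : u < x + 1 := by rw [hu]; linarith [Int.fract_lt_one (w - x)]
    have e : (((x : AddCircle (1 : ℝ)), p.2) : Ann) = p := Prod.ext hxp rfl
    rcases le_total u (x + p.2) with h' | h'
    · left
      rw [hG1]
      exact ⟨(x, p.2, u), ⟨hx, ⟨d1, d2⟩, u1, h', by simp only; rw [hcu]; exact hw.1⟩, e⟩
    · right
      rw [hG2]
      exact ⟨(x, p.2, u), ⟨hx, ⟨d1, d2⟩, h', u2.le, by simp only; rw [hcu]; exact hw.1⟩, e⟩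
  have hdis : ∀ p ∈ T, ¬ (p ∈ G1 ∧ p ∈ G2) := by
    rintro p hp ⟨g1, g2⟩
    obtain ⟨d1, d2, hall⟩ := h p hp
    obtain ⟨x, hx, hxp⟩ := exists_rep p.1
    obtain ⟨u, a1, a2, a3⟩ := m1 p hp g1 x hxp
    obtain ⟨v, b1, b2, b3⟩ := m2 p hp g2 x hxp
    exact J u v (by linarith) (by linarith) (by rw [a3.1, b3.1])
  by_cases hall1 : ∀ p ∈ T, p ∈ G1
  · left
    exact fun p hp => m1 p hp (hall1 p hp)
  · right
    have hall2 : ∀ p ∈ T, p ∈ G2 := by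
      by_contra hcon
      push Not at hall1 hcon
      obtain ⟨p, hp, hp1⟩ := hall1
      obtain ⟨q, hq, hq2⟩ := hcon
      have hp2 : p ∈ G2 := (hcov hp).resolve_left hp1
      have hq1 : q ∈ G1 := (hcov hq).resolve_right hq2
      obtain ⟨r, hr, hr1, hr2⟩ := isPreconnected_closed_iff.1 hT.isPreconnected G1 G2 c1 c2 hcov
        ⟨q, hq, hq1⟩ ⟨p, hp, hp2⟩
      exact hdis r hr ⟨hr1, hr2⟩
    exact fun p hp => m2 p hp (hall2 p hp)

/-- connected families of triangles whose third vertex stays on one of the arcs -/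
theorem tri_fam (L : Loop c) (J : Inj c) (nosq : NoSq (range c)) {κ : ℂ} (hκ : κ = I ∨ κ = -I)
    {σ : ℝ} (hσ : σ = 1 ∨ σ = -1) {δ : ℝ} (hδ : 0 < δ) (hδ2 : δ < 1 / 2) :
    ∃ T : Set Ann, IsConnected T ∧ (∃ p ∈ T, p.2 = δ) ∧ (∃ p ∈ T, p.2 = 1 - δ) ∧
      (∀ p ∈ T, δ ≤ p.2 ∧ p.2 ≤ 1 - δ) ∧
      ((∀ p ∈ T, ∀ x : ℝ, (x : AddCircle (1 : ℝ)) = p.1 →
        ∃ u, x < u ∧ u < x + p.2 ∧ TriM c κ σ x (x + p.2) u) ∨
      (∀ p ∈ T, ∀ x : ℝ, (x : AddCircle (1 : ℝ)) = p.1 →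
        ∃ u, x + p.2 < u ∧ u < x + 1 ∧ TriM c κ σ x (x + p.2) u)) := by
  obtain ⟨T, hT, h1, h2, h3⟩ := tri_fam0 L J nosq hκ hσ hδ hδ2
  exact ⟨T, hT, h1, h2, fun p hp => ⟨(h3 p hp).1, (h3 p hp).2.1⟩, split L J hκ hδ hT h3⟩

/-- tiny triangles with the third vertex in the middle -/
theorem tiny (L : Loop c) (J : Inj c) (nosq : NoSq (range c)) {κ : ℂ} (hκ : κ = I ∨ κ = -I)
    {σ : ℝ} (hσ : σ = 1 ∨ σ = -1) {ε : ℝ} (hε : 0 < ε) :
    ∃ t1 t2 t3 : ℝ, t1 < t2 ∧ t2 < t3 ∧ t3 < t1 + ε ∧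
      (TriM c κ σ t1 t3 t2 ∨ TriM c κ σ t3 t1 t2) := by
  obtain ⟨δ, hδ, hδ2, hδε⟩ : ∃ δ : ℝ, 0 < δ ∧ δ < 1 / 2 ∧ δ < ε := by
    refine ⟨min (ε / 2) (1 / 4), by positivity, ?_, ?_⟩
    · exact (min_le_right _ _).trans_lt (by norm_num)
    · exact (min_le_left _ _).trans_lt (by linarith)
  obtain ⟨T, -, ⟨p, hp, e1⟩, ⟨q, hq, e2⟩, -, h | h⟩ := tri_fam L J nosq hκ hσ hδ hδ2
  · obtain ⟨x, -, hx⟩ := exists_rep p.1
    obtain ⟨u, a1, a2, a3⟩ := h p hp x hx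
    exact ⟨x, u, x + p.2, a1, a2, by linarith, Or.inl a3⟩
  · obtain ⟨x, -, hx⟩ := exists_rep q.1
    obtain ⟨u, a1, a2, a3⟩ := h q hq x hx
    refine ⟨x + q.2, u, x + 1, a1, a2, by linarith, Or.inr ?_⟩
    refine ⟨?_, ?_⟩
    · rw [L.per]; exact a3.1
    · rw [L.per]; exact a3.2

end Pool.Agent.Y765.Sq
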